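import Pool.Agent.SGP.Stmts

/-!
# Squad SGP (MP_41797f_co), row INS: a point near `c` in the angle `p c q`
-/

open Filter Topology

namespace Pool.Agent.SGP.H39

open Pool.Agent.SGE Pool.Agent.SGP

theorem o_lin (c y p q : ℝ × ℝ) (e t : ℝ) :
    o c y (c + e • ((p - c) + t • (q - c))) = e * (o c y p + t * o c y q) := by
  unfold o
  simp only [Prod.fst_add, Prod.snd_add, Prod.smul_fst, Prod.smul_snd, Prod.fst_sub, Prod.snd_sub,
    smul_eq_mul]
  ring

theorem o_lin' (c y p q : ℝ × ℝ) (e t : ℝ) :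
    o c (c + e • ((p - c) + t • (q - c))) y = e * (o c p y + t * o c q y) := by
  unfold o
  simp only [Prod.fst_add, Prod.snd_add, Prod.smul_fst, Prod.smul_snd, Prod.fst_sub, Prod.snd_sub,
    smul_eq_mul]
  ring

theorem eq_of_o (c y p q : ℝ × ℝ) (h : 0 < o c p q) (h1 : o c y p = 0) (h2 : o c y q = 0) :
    y = c := by
  unfold o at h h1 h2
  have e1 : (y.1 - c.1) * ((p.1 - c.1) * (q.2 - c.2) - (p.2 - c.2) * (q.1 - c.1)) = 0 := by
    linear_combination (p.1 - c.1) * h2 - (q.1 - c.1) * h1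
  have e2 : (y.2 - c.2) * ((p.1 - c.1) * (q.2 - c.2) - (p.2 - c.2) * (q.1 - c.1)) = 0 := by
    linear_combination (p.2 - c.2) * h2 - (q.2 - c.2) * h1
  have f1 := (mul_eq_zero.1 e1).resolve_right h.ne'
  have f2 := (mul_eq_zero.1 e2).resolve_right h.ne'
  exact Prod.ext (sub_eq_zero.1 f1) (sub_eq_zero.1 f2)

theorem o_flip (c x y : ℝ × ℝ) : o c x y = -o c y x := by
  unfold o; ring

theorem ins : InsStmt := by
  intro V _ c p q R f hpq hne hgen
  classical
  obtain ⟨t, ht0, ht⟩ : ∃ t : ℝ, 0 < t ∧ ∀ y : V, R y → y ≠ c →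
      o (f c) (f y) (f p) + t * o (f c) (f y) (f q) ≠ 0 := by
    obtain ⟨t, ht0, ht⟩ := (Set.Ioi_infinite (0 : ℝ)).exists_notMem_finset
      (Finset.univ.image fun y : V => -(o (f c) (f y) (f p)) / o (f c) (f y) (f q))
    refine ⟨t, ht0, fun y hy hyc h => ?_⟩
    by_cases h2 : o (f c) (f y) (f q) = 0
    · rw [h2, mul_zero, add_zero] at h
      exact hne y hy hyc (eq_of_o _ _ _ _ hpq h h2)
    · refine ht (Finset.mem_image.2 ⟨y, Finset.mem_univ y, ?_⟩)
      rw [div_eq_iff h2]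
      linarith
  have hev : ∀ᶠ e : ℝ in 𝓝[>] 0, ∀ y z : V, R y → R z → y ≠ c → z ≠ c → y ≠ z →
      0 < o (f c + e • ((f p - f c) + t • (f q - f c))) (f y) (f z) * o (f c) (f y) (f z) := by
    rw [Filter.eventually_all]
    intro y
    rw [Filter.eventually_all]
    intro z
    by_cases hyz : R y ∧ R z ∧ y ≠ c ∧ z ≠ c ∧ y ≠ z
    · obtain ⟨h1, h2, h3, h4, h5⟩ := hyz
      have hc : Continuous fun e : ℝ =>
          o (f c + e • ((f p - f c) + t • (f q - f c))) (f y) (f z) * o (f c) (f y) (f z) := by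
        unfold o
        fun_prop
      have h0 : 0 < o (f c + (0 : ℝ) • ((f p - f c) + t • (f q - f c))) (f y) (f z) *
          o (f c) (f y) (f z) := by
        rw [zero_smul, add_zero]
        exact mul_self_pos.2 (hgen y z h1 h2 h3 h4 h5)
      have h6 := (hc.tendsto 0).eventually (lt_mem_nhds h0)
      refine (h6.filter_mono nhdsWithin_le_nhds).mono fun e he _ _ _ _ _ => he
    · refine Filter.Eventually.of_forall fun e h1 h2 h3 h4 h5 => ?_
      exact absurd ⟨h1, h2, h3, h4, h5⟩ hyz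
  obtain ⟨e, he, he0⟩ := (hev.and self_mem_nhdsWithin).exists
  have he0' : 0 < e := he0
  refine ⟨f c + e • ((f p - f c) + t • (f q - f c)), ⟨he, ?_, ?_, ?_⟩⟩
  · intro y hy hyc h1 h2
    rw [o_lin]
    refine mul_pos he0' ?_
    have h3 : 0 ≤ o (f c) (f y) (f p) + t * o (f c) (f y) (f q) :=
      add_nonneg h1 (mul_nonneg ht0.le h2)
    exact lt_of_le_of_ne h3 (ht y hy hyc).symm
  · intro y hy hyc h1 h2
    rw [o_lin']
    refine mul_pos he0' ?_
    have h3 : 0 ≤ o (f c) (f p) (f y) + t * o (f c) (f q) (f y) :=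
      add_nonneg h1 (mul_nonneg ht0.le h2)
    refine lt_of_le_of_ne h3 fun h4 => ht y hy hyc ?_
    rw [o_flip (f c) (f y) (f p), o_flip (f c) (f y) (f q)]
    linarith
  · intro y hy hyc
    rw [o_lin]
    exact mul_ne_zero he0'.ne' (ht y hy hyc)

end Pool.Agent.SGP.H39
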