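import Pool.Agent.SGP.Stmts

/-!
# Squad SGP (MP_41797f_co), row SRT: a chain in an angle is sorted
-/

namespace Pool.Agent.SGP.H39

open Pool.Agent.SGE Pool.Agent.SGP

theorem o_self (c b : ℝ × ℝ) : o c b b = 0 := by
  unfold o; ring

theorem o_swap (c x y : ℝ × ℝ) : o c x y = -o c y x := by
  unfold o; ring

theorem o_plu (c x y z b : ℝ × ℝ) :
    o c x z * o c y b = o c x y * o c z b + o c x b * o c y z := by
  unfold o; ring

theorem ne_b {c b : ℝ × ℝ} {L : List (ℝ × ℝ)} (hb : ∀ y ∈ L, y ≠ b → 0 < o c y b)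
    {x y : ℝ × ℝ} (hy : y ∈ L) (hxy : 0 < o c x y) : x ≠ b := by
  rintro rfl
  by_cases h : y = x
  · rw [h, o_self] at hxy
    exact lt_irrefl _ hxy
  · have := hb y hy h
    rw [o_swap] at this
    linarith

theorem tr {c b : ℝ × ℝ} {L : List (ℝ × ℝ)} (hb : ∀ y ∈ L, y ≠ b → 0 < o c y b)
    {x y z : ℝ × ℝ} (hx : x ∈ L) (hy : y ∈ L) (hz : z ∈ L) (hxy : 0 < o c x y)
    (hyz : 0 < o c y z) : 0 < o c x z := by
  have h1 := hb x hx (ne_b hb hy hxy)
  have h2 := hb y hy (ne_b hb hz hyz)
  have h3 : 0 ≤ o c z b := by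
    by_cases h : z = b
    · rw [h, o_self]
    · exact (hb z hz h).le
  have h4 := o_plu c x y z b
  have h5 : 0 < o c x z * o c y b := by
    rw [h4]
    have := mul_nonneg hxy.le h3
    have := mul_pos h1 hyz
    linarith
  exact (pos_iff_pos_of_mul_pos h5).2 h2

theorem srt : SrtStmt := by
  intro c b L
  induction L with
  | nil => intro _ _; exact List.Pairwise.nil
  | cons x L ih =>
    intro hch hb
    cases L with
    | nil => exact List.pairwise_singleton _ _
    | cons y L' =>
      rw [List.isChain_cons_cons] at hch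
      have hp := ih hch.2 fun z hz => hb z (List.mem_cons_of_mem x hz)
      refine List.pairwise_cons.2 ⟨?_, hp⟩
      intro z hz
      rcases List.mem_cons.1 hz with h | h
      · rw [h]
        exact hch.1
      · exact tr hb (List.mem_cons_self) (List.mem_cons_of_mem x List.mem_cons_self)
          (List.mem_cons_of_mem x hz) hch.1 ((List.pairwise_cons.1 hp).1 z h)

end Pool.Agent.SGP.H39
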